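import Mathlib
import Pool.Agent.Helper40.Bilin.Defs
import Pool.Agent.Helper40.Bilin.Main

/-!
The lacunary variational estimate (iv) for bilinear polynomial ergodic averages fails when the
second exponent is infinite.
-/

open MeasureTheory ENNReal
open Pool.Agent.Helper40.Bilin

namespace Pool.Agent.Results.MP_779522_an.VariationFails

/-- For every integer polynomial `P` of degree at least two, every `p₁ ∈ [1, ∞)`, every `r > 0` and
every `lam`, on the integers with counting measure and a suitable measure preserving bijection
(the shift) no constant `C` satisfies the inequality of property (iv) with exponents `(p₁, ∞)`. -/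
theorem result (P : Polynomial ℤ) (hP : 2 ≤ P.natDegree) (p₁ : ℝ≥0∞) (h1 : 1 ≤ p₁)
    (h2 : p₁ ≠ ∞) (r : ℝ) (hr : 0 < r) (lam : ℝ) :
    ∃ T : ℤ ≃ᵐ ℤ, MeasurePreserving T Measure.count Measure.count ∧
      ∀ C : ℝ, ¬ VarBound p₁ ∞ r lam P Measure.count T C :=
  main P hP p₁ h1 h2 r hr lam

end Pool.Agent.Results.MP_779522_an.VariationFails
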